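import Pool.Agent.Helper46.NU.Goals1

/-! Packet DOM. -/

open MeasureTheory Filter Topology Set
open scoped ENNReal

noncomputable section

namespace NU.PkDOM

/-- The measure of a node. -/
def nu {S : Sys} (F : Pt S → Set (Finset ℕ)) (z : Pt S) (v : ℕ × Finset ℕ) : ℝ≥0∞ :=
  coin {x | x ∉ OpenOf (F z) ∧ ∀ m < v.1, (x m = true ↔ m ∈ v.2)}

/-- An enumeration. -/
theorem exists_enum : ∃ e : ℕ → ℕ × Finset ℕ, Function.Surjective e := exists_surjective_nat _

def enum : ℕ → ℕ × Finset ℕ := exists_enum.choose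

theorem enum_surj : Function.Surjective enum := exists_enum.choose_spec

/-- Admissible successors. -/
def Q {S : Sys} (ξ : S.C) (F : Pt S → Set (Finset ℕ)) (j : ℕ) (z : Pt S) (v p : ℕ × Finset ℕ) :
    Prop :=
  (j ≤ p.1 ∧ v.1 ≤ 2 ^ p.1 ∧ p.2 ⊆ Finset.range (2 ^ (p.1 + 1)) ∧
    (∀ m < v.1, (m ∈ p.2 ↔ m ∈ v.2))) ∧ (∀ m ∈ blk p.1, (m ∈ p.2 ↔ z ξ m = true)) ∧
    nu F z (2 ^ (p.1 + 1), p.2) ≠ 0

open Classical in
def next {S : Sys} (ξ : S.C) (F : Pt S → Set (Finset ℕ)) (j : ℕ) (z : Pt S) (v : ℕ × Finset ℕ) :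
    ℕ × Finset ℕ :=
  if h : ∃ i, Q ξ F j z v (enum i) then
    (2 ^ ((enum (Nat.find h)).1 + 1), (enum (Nat.find h)).2) else v

def node {S : Sys} (ξ : S.C) (F : Pt S → Set (Finset ℕ)) (z : Pt S) : ℕ → ℕ × Finset ℕ
  | 0 => (0, ∅)
  | j + 1 => next ξ F j z (node ξ F z j)

theorem cyl_meas (t : Finset ℕ) : MeasurableSet {x : ℕ → Bool | Cyl t x} := by
  have h : {x : ℕ → Bool | Cyl t x} =
      ⋃ n : ℕ, ⋃ _ : LastN t n, ⋂ m : ℕ, ⋂ _ : m < n, {x | (x m = true ↔ m ∈ t)} := by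
    ext x
    simp only [Cyl, Set.mem_ofPred_eq, Set.mem_iUnion, Set.mem_iInter, exists_prop]
  rw [h]
  refine MeasurableSet.iUnion fun n => MeasurableSet.iUnion fun _ =>
    MeasurableSet.iInter fun m => MeasurableSet.iInter fun _ => ?_
  have h2 : {x : ℕ → Bool | (x m = true ↔ m ∈ t)} = (fun x : ℕ → Bool => x m) ⁻¹'
      {b | (b = true ↔ m ∈ t)} := rfl
  rw [h2]
  exact (measurable_pi_apply m) (MeasurableSet.of_discrete)

theorem pair_meas {S : Sys} (F : Pt S → Set (Finset ℕ)) (hF : ∀ t, MeasurableSet {z | t ∈ F z})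
    (v : ℕ × Finset ℕ) : MeasurableSet {p : Pt S × (ℕ → Bool) | p.2 ∉ OpenOf (F p.1) ∧
      ∀ m < v.1, (p.2 m = true ↔ m ∈ v.2)} := by
  have h1 : MeasurableSet {p : Pt S × (ℕ → Bool) | p.2 ∈ OpenOf (F p.1)} := by
    have : {p : Pt S × (ℕ → Bool) | p.2 ∈ OpenOf (F p.1)} =
        ⋃ t : Finset ℕ, (Prod.fst ⁻¹' {z | t ∈ F z}) ∩ (Prod.snd ⁻¹' {x | Cyl t x}) := by
      ext p
      simp only [OpenOf, Set.mem_ofPred_eq, Set.mem_iUnion, Set.mem_inter_iff, Set.mem_preimage]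
    rw [this]
    exact MeasurableSet.iUnion fun t => (measurable_fst (hF t)).inter (measurable_snd (cyl_meas t))
  have h2 : MeasurableSet {p : Pt S × (ℕ → Bool) | ∀ m < v.1, (p.2 m = true ↔ m ∈ v.2)} := by
    have : {p : Pt S × (ℕ → Bool) | ∀ m < v.1, (p.2 m = true ↔ m ∈ v.2)} =
        ⋂ m : ℕ, ⋂ _ : m < v.1, (fun p : Pt S × (ℕ → Bool) => p.2 m) ⁻¹'
          {b | (b = true ↔ m ∈ v.2)} := by
      ext p
      simp only [Set.mem_ofPred_eq, Set.mem_iInter, Set.mem_preimage]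
    rw [this]
    exact MeasurableSet.iInter fun m => MeasurableSet.iInter fun _ =>
      ((measurable_pi_apply m).comp measurable_snd) MeasurableSet.of_discrete
  exact h1.compl.inter h2

theorem nu_meas {S : Sys} (F : Pt S → Set (Finset ℕ)) (hF : ∀ t, MeasurableSet {z | t ∈ F z})
    (v : ℕ × Finset ℕ) : Measurable fun z => nu F z v :=
  measurable_measure_prodMk_left (ν := coin) (pair_meas F hF v)

theorem Q_meas {S : Sys} (ξ : S.C) (F : Pt S → Set (Finset ℕ))
    (hF : ∀ t, MeasurableSet {z | t ∈ F z}) (j : ℕ) (v p : ℕ × Finset ℕ) :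
    MeasurableSet {z | Q ξ F j z v p} := by
  unfold Q
  refine (MeasurableSet.const _).inter (MeasurableSet.inter ?_ ?_)
  · have : {z : Pt S | ∀ m ∈ blk p.1, (m ∈ p.2 ↔ z ξ m = true)} =
        ⋂ m : ℕ, ⋂ _ : m ∈ blk p.1, (fun z : Pt S => z ξ m) ⁻¹' {b | (m ∈ p.2 ↔ b = true)} := by
      ext z
      simp only [Set.mem_ofPred_eq, Set.mem_iInter, Set.mem_preimage]
    show MeasurableSet {z : Pt S | ∀ m ∈ blk p.1, (m ∈ p.2 ↔ z ξ m = true)}
    rw [this]
    refine MeasurableSet.iInter fun m => MeasurableSet.iInter fun _ => ?_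
    have hm : Measurable (fun z : Pt S => z ξ m) :=
      (measurable_pi_apply m).comp (measurable_pi_apply ξ)
    exact hm MeasurableSet.of_discrete
  · exact (nu_meas F hF _) (measurableSet_singleton 0).compl

theorem next_meas {S : Sys} (ξ : S.C) (F : Pt S → Set (Finset ℕ))
    (hF : ∀ t, MeasurableSet {z | t ∈ F z}) (j : ℕ) (v v' : ℕ × Finset ℕ) :
    MeasurableSet {z | next ξ F j z v = v'} := by
  classical
  have hN : ∀ i : ℕ, MeasurableSet {z | Q ξ F j z v (enum i) ∧ ∀ i' < i,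
      ¬ Q ξ F j z v (enum i')} := by
    intro i
    refine MeasurableSet.inter (Q_meas ξ F hF j v _) ?_
    have : {z | ∀ i' < i, ¬ Q ξ F j z v (enum i')} =
        ⋂ i' : ℕ, ⋂ _ : i' < i, {z | Q ξ F j z v (enum i')}ᶜ := by
      ext z
      simp only [Set.mem_ofPred_eq, Set.mem_iInter, Set.mem_compl_iff]
    show MeasurableSet {z | ∀ i' < i, ¬ Q ξ F j z v (enum i')}
    rw [this]
    exact MeasurableSet.iInter fun i' => MeasurableSet.iInter fun _ => (Q_meas ξ F hF j v _).compl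
  have h0 : MeasurableSet {z | ¬ ∃ i, Q ξ F j z v (enum i)} := by
    have : {z | ¬ ∃ i, Q ξ F j z v (enum i)} = (⋃ i : ℕ, {z | Q ξ F j z v (enum i)})ᶜ := by
      ext z
      simp only [Set.mem_ofPred_eq, Set.mem_iUnion, Set.mem_compl_iff]
    rw [this]
    exact (MeasurableSet.iUnion fun i => Q_meas ξ F hF j v _).compl
  have h1 : {z | next ξ F j z v = v'} =
      (⋃ i : ℕ, ⋃ _ : (2 ^ ((enum i).1 + 1), (enum i).2) = v',
        {z | Q ξ F j z v (enum i) ∧ ∀ i' < i, ¬ Q ξ F j z v (enum i')}) ∪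
      (⋃ _ : v = v', {z | ¬ ∃ i, Q ξ F j z v (enum i)}) := by
    ext z
    simp only [Set.mem_ofPred_eq, Set.mem_union, Set.mem_iUnion, exists_prop]
    constructor
    · intro h
      unfold next at h
      split_ifs at h with hex
      · left
        exact ⟨Nat.find hex, h, Nat.find_spec hex, fun i' hi' => Nat.find_min hex hi'⟩
      · right
        exact ⟨h, hex⟩
    · rintro (⟨i, h2, h3, h4⟩ | ⟨h2, h3⟩)
      · have hex : ∃ i, Q ξ F j z v (enum i) := ⟨i, h3⟩
        have hi : Nat.find hex = i := by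
          rw [Nat.find_eq_iff]
          exact ⟨h3, h4⟩
        unfold next
        rw [dif_pos hex, hi]
        exact h2
      · unfold next
        rw [dif_neg h3]
        exact h2
  rw [h1]
  exact (MeasurableSet.iUnion fun i => MeasurableSet.iUnion fun _ => hN i).union
    (MeasurableSet.iUnion fun _ => h0)

theorem node_meas {S : Sys} (ξ : S.C) (F : Pt S → Set (Finset ℕ))
    (hF : ∀ t, MeasurableSet {z | t ∈ F z}) (j : ℕ) :
    ∀ v : ℕ × Finset ℕ, MeasurableSet {z | node ξ F z j = v} := by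
  induction j with
  | zero =>
    intro v
    show MeasurableSet {z : Pt S | ((0, ∅) : ℕ × Finset ℕ) = v}
    exact MeasurableSet.const _
  | succ j ih =>
    intro v
    have : {z | node ξ F z (j + 1) = v} =
        ⋃ v0 : ℕ × Finset ℕ, {z | node ξ F z j = v0} ∩ {z | next ξ F j z v0 = v} := by
      ext z
      simp only [Set.mem_ofPred_eq, Set.mem_iUnion, Set.mem_inter_iff]
      constructor
      · intro h
        exact ⟨_, rfl, h⟩
      · rintro ⟨v0, h1, h2⟩
        rw [← h1] at h2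
        exact h2
    rw [this]
    exact MeasurableSet.iUnion fun v0 => (ih v0).inter (next_meas ξ F hF j v0 v)

open Classical in
/-- The limit point. -/
def ww {S : Sys} (ξ : S.C) (F : Pt S → Set (Finset ℕ)) (z : Pt S) (m : ℕ) : Bool :=
  decide (∃ j, m < (node ξ F z j).1 ∧ m ∈ (node ξ F z j).2)

theorem ww_meas {S : Sys} (ξ : S.C) (F : Pt S → Set (Finset ℕ))
    (hF : ∀ t, MeasurableSet {z | t ∈ F z}) : Measurable (ww ξ F) := by
  rw [measurable_pi_iff]
  intro m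
  apply measurable_to_bool
  have : (fun z => ww ξ F z m) ⁻¹' {true} =
      ⋃ j : ℕ, ⋃ v : ℕ × Finset ℕ, ⋃ _ : m < v.1 ∧ m ∈ v.2, {z | node ξ F z j = v} := by
    ext z
    simp only [ww, Set.mem_preimage, Set.mem_singleton_iff, decide_eq_true_eq, Set.mem_iUnion,
      Set.mem_ofPred_eq, exists_prop]
    constructor
    · rintro ⟨j, h⟩
      exact ⟨j, _, h, rfl⟩
    · rintro ⟨j, v, h, h2⟩
      exact ⟨j, by rw [h2]; exact h⟩
  rw [this]
  exact MeasurableSet.iUnion fun j => MeasurableSet.iUnion fun v => MeasurableSet.iUnion fun _ =>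
    node_meas ξ F hF j v

theorem exists_succ {S : Sys} (ξ : S.C) (F : Pt S → Set (Finset ℕ)) (z : Pt S)
    (hz : ∀ (l : ℕ) (u : Finset ℕ),
      coin {x | x ∉ OpenOf (F z) ∧ ∀ m < l, (x m = true ↔ m ∈ u)} ≠ 0 →
      ∃ᶠ n in atTop, coin {x | x ∉ OpenOf (F z) ∧ (∀ m < l, (x m = true ↔ m ∈ u)) ∧
        ∀ m ∈ blk n, x m = z ξ m} ≠ 0) (j : ℕ) (v : ℕ × Finset ℕ) (hv : nu F z v ≠ 0) :
    ∃ p : ℕ × Finset ℕ, Q ξ F j z v p := by
  classical
  have h1 := hz v.1 v.2 hv
  rw [frequently_atTop] at h1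
  obtain ⟨n, hn, hpos⟩ := h1 (max j v.1)
  have hjn : j ≤ n := (le_max_left _ _).trans hn
  have hvn : v.1 ≤ 2 ^ n := ((le_max_right _ _).trans hn).trans Nat.lt_two_pow_self.le
  have h2n : 2 ^ n < 2 ^ (n + 1) := Nat.pow_lt_pow_right (by norm_num) (Nat.lt_succ_self n)
  by_contra hcon
  apply hpos
  set W : Finset (Finset ℕ) := ((Finset.range (2 ^ (n + 1))).powerset).filter (fun u' =>
    (∀ m < v.1, (m ∈ u' ↔ m ∈ v.2)) ∧ (∀ m ∈ blk n, (m ∈ u' ↔ z ξ m = true))) with hW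
  have hsub : {x | x ∉ OpenOf (F z) ∧ (∀ m < v.1, (x m = true ↔ m ∈ v.2)) ∧
        ∀ m ∈ blk n, x m = z ξ m} ⊆
      ⋃ u' ∈ W, {x | x ∉ OpenOf (F z) ∧ ∀ m < 2 ^ (n + 1), (x m = true ↔ m ∈ u')} := by
    intro x hx
    obtain ⟨hx1, hx2, hx3⟩ := hx
    simp only [Set.mem_iUnion, exists_prop]
    refine ⟨(Finset.range (2 ^ (n + 1))).filter (fun m => x m = true), ?_, hx1, ?_⟩
    · rw [hW, Finset.mem_filter, Finset.mem_powerset]
      refine ⟨Finset.filter_subset _ _, fun m hm => ?_, fun m hm => ?_⟩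
      · rw [Finset.mem_filter, Finset.mem_range, ← hx2 m hm]
        constructor
        · exact fun h => h.2
        · exact fun h => ⟨by omega, h⟩
      · have hm2 : m < 2 ^ (n + 1) := (Finset.mem_Ico.1 hm).2
        rw [Finset.mem_filter, Finset.mem_range, ← hx3 m hm]
        constructor
        · exact fun h => h.2
        · exact fun h => ⟨hm2, h⟩
    · intro m hm
      rw [Finset.mem_filter, Finset.mem_range]
      constructor
      · exact fun h => ⟨hm, h⟩
      · exact fun h => h.2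
  refine measure_mono_null hsub ?_
  refine le_antisymm ((measure_biUnion_finset_le W _).trans (le_of_eq
    (Finset.sum_eq_zero fun u' hu' => ?_))) (zero_le)
  have hu2 := Finset.mem_filter.1 hu'
  by_contra hne
  apply hcon
  exact ⟨(n, u'), ⟨hjn, hvn, Finset.mem_powerset.1 hu2.1, hu2.2.1⟩, hu2.2.2, hne⟩

theorem point (gm : G_GM) {S : Sys} (ξ : S.C) (F : Pt S → Set (Finset ℕ)) (z : Pt S)
    (hgood : Good 1 (F z))
    (hz : ∀ (l : ℕ) (u : Finset ℕ),
      coin {x | x ∉ OpenOf (F z) ∧ ∀ m < l, (x m = true ↔ m ∈ u)} ≠ 0 →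
      ∃ᶠ n in atTop, coin {x | x ∉ OpenOf (F z) ∧ (∀ m < l, (x m = true ↔ m ∈ u)) ∧
        ∀ m ∈ blk n, x m = z ξ m} ≠ 0) :
    ww ξ F z ∉ OpenOf (F z) ∧ ww ξ F z ∈ Nset (z ξ) := by
  classical
  have hstart : nu F z (0, ∅) ≠ 0 := by
    intro h0
    have h1 := gm 1 (F z) hgood
    have h2 : coin (OpenOf (F z))ᶜ = 0 := by
      refine measure_mono_null ?_ h0
      intro x hx
      exact ⟨hx, fun m hm => absurd hm (Nat.not_lt_zero m)⟩
    have h3 : (1 : ℝ≥0∞) ≤ coin (OpenOf (F z)) + coin (OpenOf (F z))ᶜ := by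
      calc (1 : ℝ≥0∞) = coin (OpenOf (F z) ∪ (OpenOf (F z))ᶜ) := by
            rw [Set.union_compl_self, measure_univ]
        _ ≤ _ := measure_union_le _ _
    rw [h2, add_zero] at h3
    have h4 := h3.trans h1
    rw [pow_one] at h4
    have h5 : (1 / 2 : ℝ≥0∞) < 1 := by
      rw [one_div]
      exact ENNReal.inv_lt_one.2 (by norm_num)
    exact absurd h5 (not_lt.2 h4)
  have halive : ∀ j, nu F z (node ξ F z j) ≠ 0 := by
    intro j
    induction j with
    | zero => exact hstart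
    | succ j ih =>
      have hex : ∃ i, Q ξ F j z (node ξ F z j) (enum i) := by
        obtain ⟨p, hp⟩ := exists_succ ξ F z hz j _ ih
        obtain ⟨i, hi⟩ := enum_surj p
        exact ⟨i, by rw [hi]; exact hp⟩
      show nu F z (next ξ F j z (node ξ F z j)) ≠ 0
      unfold next
      rw [dif_pos hex]
      exact (Nat.find_spec hex).2.2
  have hstep : ∀ j, ∃ p : ℕ × Finset ℕ, Q ξ F j z (node ξ F z j) p ∧
      node ξ F z (j + 1) = (2 ^ (p.1 + 1), p.2) := by
    intro j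
    have hex : ∃ i, Q ξ F j z (node ξ F z j) (enum i) := by
      obtain ⟨p, hp⟩ := exists_succ ξ F z hz j _ (halive j)
      obtain ⟨i, hi⟩ := enum_surj p
      exact ⟨i, by rw [hi]; exact hp⟩
    refine ⟨enum (Nat.find hex), Nat.find_spec hex, ?_⟩
    show next ξ F j z (node ξ F z j) = _
    unfold next
    rw [dif_pos hex]
  have hlt : ∀ j, (node ξ F z j).1 < (node ξ F z (j + 1)).1 := by
    intro j
    obtain ⟨p, hp, hn⟩ := hstep j
    rw [hn]
    have h1 := hp.1.2.1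
    have h2 : 2 ^ p.1 < 2 ^ (p.1 + 1) := Nat.pow_lt_pow_right (by norm_num) (Nat.lt_succ_self _)
    show (node ξ F z j).1 < 2 ^ (p.1 + 1)
    omega
  have hmono : StrictMono fun j => (node ξ F z j).1 := strictMono_nat_of_lt_succ hlt
  have hcoh1 : ∀ j, ∀ m < (node ξ F z j).1,
      (m ∈ (node ξ F z (j + 1)).2 ↔ m ∈ (node ξ F z j).2) := by
    intro j m hm
    obtain ⟨p, hp, hn⟩ := hstep j
    rw [hn]
    exact hp.1.2.2.2 m hm
  have hcoh : ∀ i j, i ≤ j → ∀ m < (node ξ F z i).1,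
      (m ∈ (node ξ F z j).2 ↔ m ∈ (node ξ F z i).2) := by
    intro i j hij
    induction j, hij using Nat.le_induction with
    | base => exact fun m _ => Iff.rfl
    | succ j hij ih =>
      intro m hm
      rw [hcoh1 j m (hm.trans_le (hmono.monotone hij)), ih m hm]
  have hww : ∀ j, ∀ m < (node ξ F z j).1, (ww ξ F z m = true ↔ m ∈ (node ξ F z j).2) := by
    intro j m hm
    simp only [ww, decide_eq_true_eq]
    constructor
    · rintro ⟨i, hi1, hi2⟩
      rcases le_total i j with h | h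
      · exact (hcoh i j h m hi1).2 hi2
      · exact (hcoh j i h m hm).1 hi2
    · exact fun h => ⟨j, hm, h⟩
  refine ⟨?_, ?_⟩
  · rintro ⟨t, htF, n, hn, htn⟩
    have hj : n ≤ (node ξ F z n).1 := hmono.le_apply
    apply halive n
    unfold nu
    have : {x | x ∉ OpenOf (F z) ∧ ∀ m < (node ξ F z n).1, (x m = true ↔ m ∈ (node ξ F z n).2)} =
        ∅ := by
      ext x
      constructor
      · rintro ⟨hx1, hx2⟩
        apply hx1
        refine ⟨t, htF, n, hn, fun m hm => ?_⟩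
        rw [hx2 m (hm.trans_le hj), ← hww n m (hm.trans_le hj), htn m hm]
      · exact fun h => absurd h (Set.notMem_empty x)
    rw [this, measure_empty]
  · show ∃ᶠ n in atTop, ∀ m ∈ blk n, ww ξ F z m = z ξ m
    rw [frequently_atTop]
    intro N
    obtain ⟨p, hp, hn⟩ := hstep N
    refine ⟨p.1, hp.1.1, fun m hm => ?_⟩
    have h1 := hww (N + 1) m
    rw [hn] at h1
    have h2 : m < 2 ^ (p.1 + 1) := (Finset.mem_Ico.1 hm).2
    have h3 := h1 h2
    have h4 := hp.2.1 m hm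
    rw [Bool.eq_iff_iff]
    exact h3.trans h4

theorem dom (dm1 : G_DM1) (gm : G_GM) : G_DOM := by
  intro S ξ hξ hsee F hF Γ hΓ hloc
  refine ⟨ww ξ F, ww_meas ξ F hF, ?_⟩
  have hD := dm1 S ξ hξ hsee F hF Γ hΓ hloc
  unfold Nul at hD ⊢
  filter_upwards [hD] with φ hφ
  unfold pr at hφ ⊢
  refine measure_mono_null (fun ω hω => ?_) hφ
  obtain ⟨hgood, hbad⟩ := hω
  by_contra hnot
  apply hbad
  apply point gm ξ F (zz S φ ω) hgood
  intro l u h1 h2
  apply hnot
  refine ⟨l, u, h1, ?_⟩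
  filter_upwards [h2] with n hn
  exact not_not.1 hn

end NU.PkDOM
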